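import Mathlib

/-!
# The optimal coefficient of `f_{5,5,7}` in Borodin's inequality for light faces is `5`

Let `f_{i,j,k}` be the number of triangular faces with vertices of degrees `i`, `j`, `k` of a simple
plane graph. Borodin proved
`18 f_{5,5,5} + 9 f_{5,5,6} + 5 f_{5,5,7} + 4 f_{5,6,6} ≥ 144`
for all simple plane graphs of minimum degree at least `5`. We show that the coefficient `5` of
`f_{5,5,7}` cannot be lowered: there is a simple plane triangulation of minimum degree `5`, with `130`
vertices, for which `f_{5,5,5} = f_{5,5,6} = 0` and `f_{5,5,7} = f_{5,6,6} = 16`, so that Borodin's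
inequality is an equality for it.

A connected plane graph is given as a combinatorial map of genus `0` on the set `Fin n` of its darts
(directed edges): `σ` is the rotation of the darts about their initial vertices, `α` reverses the
darts, the vertices are the cycles of `σ`, the faces are the cycles of `σ * α`, and Euler's formula
`V - E + F = 2` expresses that the map is a map on the sphere.

Construction. Each hemisphere consists of a pole `O` of degree `8` and of cyclic layers of eight
vertices `x_i`, `p_i`, `v_i`, `z_i`, `A_i`, `u_i` of degrees `5, 7, 5, 6, 7, 5` and of a layer of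
sixteen vertices `b_i, a_i` of degree `6`, with the triangles `O x_i x_(i+1)`, `x_i p_i x_(i+1)`,
`x_(i+1) p_i p_(i+1)`, `p_i v_(i+1) p_(i+1)`, `p_i v_i z_i`, `p_i z_i v_(i+1)`, `v_i A_i z_i`,
`z_i A_(i+1) v_(i+1)`, `z_i A_i u_i`, `z_i u_i A_(i+1)`, `A_i a_i u_i`, `u_i b_(i+1) A_(i+1)`,
`u_i a_i b_(i+1)`, `A_i b_i a_i`. The two cycles `b_0 a_0 b_1 a_1 …` of length `16` are joined by a
band of `32` triangles. The graph was found by solving for equality in all local inequalities of a
discharging proof of Borodin's inequality.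
-/

set_option autoImplicit false

namespace Pool.Agent.Results.MP_cadcf7_co.OptimalCoefficient

open Equiv

/-! ### Definitions -/

/-- A connected finite simple plane graph (with at least one edge), given as a combinatorial map of
genus `0`. The darts (directed edges) are the elements of `Fin n`; `σ` maps a dart to the next dart
with the same initial vertex in the cyclic order around this vertex, and `α` maps a dart to the
opposite dart. The vertices are the cycles of `σ`, the edges the cycles of `α`, and the faces the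
cycles of `σ * α` (which maps a dart to the next dart on the boundary of the face on one side of
it). -/
structure PlaneGraph where
  /-- the number of darts, i.e. twice the number of edges -/
  n : ℕ
  /-- the rotation about the vertices -/
  σ : Perm (Fin n)
  /-- the reversal of darts -/
  α : Perm (Fin n)
  nonempty : 0 < n
  /-- `α` is an involution without fixed points -/
  involutive : ∀ d, α (α d) = d
  reverse_ne : ∀ d, α d ≠ d
  /-- the graph is connected -/
  connected : ∀ d e, ∃ g ∈ Subgroup.closure ({σ, α} : Set (Perm (Fin n))), g d = e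
  /-- there are no loops: the ends of an edge are different -/
  no_loop : ∀ d, ¬ σ.SameCycle d (α d)
  /-- there are no multiple edges: two darts with the same initial vertex and the same terminal
  vertex are equal -/
  no_multiple : ∀ d e, σ.SameCycle d e → σ.SameCycle (α d) (α e) → d = e
  /-- Euler's formula `V - E + F = 2`, in the form `2 V + 2 F = 2 E + 4` with `2 E = n` -/
  euler : 2 * Nat.card (Quotient (Perm.SameCycle.setoid σ)) +
    2 * Nat.card (Quotient (Perm.SameCycle.setoid (σ * α))) = n + 4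

namespace PlaneGraph

/-- The degree of the initial vertex of the dart `d`: the number of the darts with the same initial
vertex. -/
noncomputable def deg (G : PlaneGraph) (d : Fin G.n) : ℕ :=
  Nat.card {e : Fin G.n // G.σ.SameCycle d e}

/-- The permutation of the darts whose cycles are the boundaries of the faces. -/
def next (G : PlaneGraph) : Perm (Fin G.n) := G.σ * G.α

/-- The face `q` is a triangle whose vertices have the degrees `i`, `j`, `k` (in any order): it has
a dart `d` such that `d`, `next d`, `next (next d)` is its boundary and the initial vertices of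
these three darts have the degrees `i`, `j`, `k` as a multiset. -/
def IsTriangle (G : PlaneGraph) (i j k : ℕ)
    (q : Quotient (Perm.SameCycle.setoid G.next)) : Prop :=
  ∃ d : Fin G.n, Quotient.mk _ d = q ∧ G.next (G.next (G.next d)) = d ∧ G.next d ≠ d ∧
    ({G.deg d, G.deg (G.next d), G.deg (G.next (G.next d))} : Multiset ℕ) = {i, j, k}

/-- `f_{i,j,k}`: the number of the triangular faces whose vertices have the degrees `i`, `j`, `k`. -/
noncomputable def f (G : PlaneGraph) (i j k : ℕ) : ℕ :=
  Nat.card {q : Quotient (Perm.SameCycle.setoid G.next) // G.IsTriangle i j k q}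

/-- The minimum degree of the graph is at least `5`. -/
def MinDegFive (G : PlaneGraph) : Prop := ∀ d, 5 ≤ G.deg d

/-- All faces are triangles. -/
def IsTriangulation (G : PlaneGraph) : Prop :=
  ∀ d, G.next (G.next (G.next d)) = d ∧ G.next d ≠ d

/-- The inequality `(∗_c)`: `18 f_{5,5,5} + 9 f_{5,5,6} + c f_{5,5,7} + 4 f_{5,6,6} ≥ 144`. -/
def Light (G : PlaneGraph) (c : ℝ) : Prop :=
  144 ≤ 18 * (G.f 5 5 5 : ℝ) + 9 * (G.f 5 5 6 : ℝ) + c * (G.f 5 5 7 : ℝ) + 4 * (G.f 5 6 6 : ℝ)

end PlaneGraph

/-- The inequality `(∗_c)` holds for all (connected) simple plane graphs of minimum degree at least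
`5`. -/
def HoldsForAll (c : ℝ) : Prop := ∀ G : PlaneGraph, G.MinDegFive → G.Light c

/-! ### Permutations whose cycles are given by labels -/

section Labels

variable {n : ℕ} (π : Perm (Fin n)) (L : Fin n → ℕ) (r : ℕ → Fin n)

theorem label_zpow (h1 : ∀ x, L (π x) = L x) (k : ℤ) : ∀ x, L ((π ^ k) x) = L x := by
  have h1' : ∀ x, L (π⁻¹ x) = L x := by
    intro x
    have := h1 (π⁻¹ x)
    simpa using this.symm
  induction k using Int.induction_on with
  | zero => intro x; simp
  | succ i ih =>
    intro x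
    rw [zpow_add_one, Perm.mul_apply, ih, h1]
  | pred i ih =>
    intro x
    rw [zpow_sub_one, Perm.mul_apply, ih, h1']

theorem sameCycle_iff (h1 : ∀ x, L (π x) = L x) (h2 : ∀ x, π.SameCycle (r (L x)) x)
    (x y : Fin n) : π.SameCycle x y ↔ L x = L y := by
  constructor
  · rintro ⟨k, rfl⟩
    exact (label_zpow π L h1 k x).symm
  · intro h
    have hx := h2 x
    have hy := h2 y
    rw [← h] at hy
    exact hx.symm.trans hy

/-- The cycles of `π` correspond to the labels. -/
def cyclesEquiv (m : ℕ) (h1 : ∀ x, L (π x) = L x) (h2 : ∀ x, π.SameCycle (r (L x)) x)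
    (hlt : ∀ x, L x < m) (hr : ∀ l : Fin m, L (r l) = l) :
    Fin m ≃ Quotient (Perm.SameCycle.setoid π) where
  toFun l := Quotient.mk _ (r l)
  invFun := Quotient.lift (fun x => (⟨L x, hlt x⟩ : Fin m)) (by
    intro x y h
    have : L x = L y := (sameCycle_iff π L r h1 h2 x y).1 h
    simp only [this])
  left_inv l := by
    apply Fin.ext
    exact hr l
  right_inv q := by
    induction q using Quotient.inductionOn with
    | h x => exact Quotient.sound (h2 x)

theorem card_cycles (m : ℕ) (h1 : ∀ x, L (π x) = L x) (h2 : ∀ x, π.SameCycle (r (L x)) x)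
    (hlt : ∀ x, L x < m) (hr : ∀ l : Fin m, L (r l) = l) :
    Nat.card (Quotient (Perm.SameCycle.setoid π)) = m := by
  rw [← Nat.card_congr (cyclesEquiv π L r m h1 h2 hlt hr), Nat.card_eq_fintype_card,
    Fintype.card_fin]

end Labels

/-! ### The example -/

/-- The entry `i` of a table `t` with entries of `w` bits. -/
def get (w t i : ℕ) : ℕ := (t >>> (w * i)) % 2 ^ w

/-- the rotation -/
def tS : ℕ := 0xbe2ffbfafdbf2fbbeaf9bcef7bdaf5bd2eebcaf1bc2efba6edbb2ebbaae4ba2e7b9ae5b7ee3b8ae1b82dab7addb72dbb56d9b62d7b5ad0b52d3b4ad1b26cfb3acdb32cbb2ac2b22c7b1ac5b12c3aeec1b02bfafabdaf2b4aeab9ae2b7adab5ab6b3acab1ac2afabaa6ab2abaaaa9aa2a7a7ea5a92a3a8aa1a8298a7a9da729ba6a99a4e97a5a95a528da4a91a428fa3a88a328ba2a89a0a87a1a85a12839f681a027f9fa779f27b9ea799e2729da759d2739b2719c26f9ba6d99e6b9aa699a26199a659926398a5c9825f97a5d95a5b96a5996257946559525394a4b9424f93a4d9324692a4992247902459124390a418ee3f8fa3d8f2348ea398e2378da358be338ca318c2288ba2d8b22b8aa2988e2789a258921c88a218821f87a1d85e1b86a198621085a158521384a1182e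0f83a0d8320482a098220781a057fe0380a01801f87f9fd7f1fb7e9f97cdf77d9f57d1ec7c9f17c1ef7b9ed79deb7a9e97a1e0799e5791e3789e1769df779dd771db751d9761d7759d5739d3749d1741cf721cd731cb729c9709c7719c5711c36f1c1701bf6f9bd6d9bb6e9b96e1b76c1b56d1b36c9b16a9af6b9ad6b1ab691a96a1a7699a5679a3689a16819f6619d6719b66999649976599565193631916418f6398d6198b62989621876018561183609815e97f5f97d5f17b5d1795e1775d9755b9735c9715c16f5a16d5b16b5a969589675996559163571615815f5795d5595b56959561575415555153549515294f5394d5314b5114952147519454f943509415013f4e13d4f13b4e9394c9374d9354d1334b1314c12f4b92d4992b4a9294a12748125491234892146d1f4791d4711446919461174591543d1344911441084390d4310b4290940d0741905410fc40901400ff3f8fd3dcfb3e8f93e0f03d8f53d0f33c8f13acef3b8ed3b0e43a8e93a0e7398e537ce3388e1380d8378dd370db368d934cd7358d5350cc348d1340cf338cd31ccb328c9320c0318c5310c3308c12e8bf2f8bd2f0bb2d4b92e0b72d8af2d0b32c8b12c0aa2b8ad2b0ab290a92a0a7298a527ca3288a1280992789d2709b26894260972589523893248912408f2248d2308b2288322087218852107e208812007f1e07d1f07b1e8791cc771d8751d06d1c8711c06f1b8681b06b1a8691846719865190631885a1805f1785d1705b14c5916057158551504c148511404f1384d1144b12849120471183e11043108411003f0dc3d0f03b0e8390e0300d8350d0330c8310ac2f0b82d0b0260a8290a02708425090230881c0801f0781d05c1b06819060120581505013034110400f038080300b0280900007018050100300801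
/-- the inverse rotation -/
def tSi : ℕ := 0xbfafdbf2fbbeaf9be2ffbdaf5bd2f3bdef1bc2efbbaf2bb2ebbaae9bb6e7b9ae5b92e8b8ae1b82dfb8eddb72dbb6adeb62d7b5ad5b66d3b4ad1b42d4b3acdb32cbb2ac9b3ec7b1ac5b12c3b0ac8b02bfafabdaf2bbb06b9ae2b7adab5ad2baacab1ac2afabaadaceabaaaa9aa2a7a9aaca92a3a8aa1a829fa969da729ba6a99a629ea5a95a5293a5e91a428fa3a8da4a8ba2a89a228ca1a85a1283a0a87a027f9fa7da067b9ea799e2779f2759d2739ca769c26f9ba6d9b2719aa699a2679ae659926398a6199a5f97a5d9726096a599625795a5b9525394a519564f93a4d9324b942499224791a4a9124390a41902458fa3d8f23b8fe398e2378da358d23a8ca318c22f8ce2d8b22b8aa298a22e89a258922389e218821f87a1d8722286a198621786e158521384a118421683a0d8320b83e098220781a058120a80a01801ff80dfd7f1fb7e9f97e1fe7d9f57d1f37ddf17c1ef7b9ed7b1f27a9e97a1e77ade5791e3789e1781e6779dd771db769df761d7759d5751d9749d1741cf739d3731cb729c9721cd719c5711c3709c7701bf6f9bd6f1c16e9b96e1b76d9bb6d1b36c9b16c1b56b9ad6b1ab6a9af6a1a7699a5691a9689a16819f679a36719b669996619d6599565193649976418f6398d6319162989621876198b6118360981601855f97d5f17b5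e97f5e1775d9755d1795c9715c16f5b9735b16b5a9695a16d5996559163589675815f5795d5716156959561575595b5515354951541555394d5314b5294f521475194551149509415013f4f9434f13b4e9394e13d4d9354d1334c9374c12f4b92d4b1314a9294a1274992b4912348921481254791d4711b47d1946117459154511a449114410f44d0d4310b429094210e419054110341d01400ff3f8fd3f1023e8f93e0f73ecf53d0f33c8f13c0f63b8ed3b0eb3bce93a0e7398e5390ea388e1380df38cdd370db368d9360de358d5350d335cd1340cf338cd330d2328c9320c732cc5310c3308c1300c62f8bd2f0bb2e8bf2e0b72d8b52e4b32c8b12c0af2d0ad2b0ab2a8ae2a0a7298a5290a9288a12809f28c9d2709b26899278972589525098248912408f238932308b22889234872188521083220812007f1f8821f07b1e8791e07d1d8751d0731dc711c06f1b86d1c86b1a8691a06c19865190631886119c5f1785d1705b16860160571585515053164511404f1384d1305212849120471184512c43108411003f0f8440f03b0e8390e0370f4350d0330c8310c0360b82d0b02b0bc290a0270982a09023088210941f0781d07020068190601706c1505013048160400f0380d0440b028090200c01805010030080100007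
/-- the reversal -/
def tA : ℕ := 0xb5edcb86e6baef0bd6d3b2ed2be6f1b16c4bd2fabb2beaf6efbeee7adeb6baafcb8ab0abee5bf6ddaa6a8b82feb62a2a86dbbfed4a72d6be2f6b329ba3e95a6ad1bdec6a2e84a2acabcef2afe809e67fb0eeebb6b89d66e9d2bcba6e8ac66a98e69ad6e4b8eaa97e5897aaeb7edea8e5493653a9edab669d92648a82d5b42cda5a4490e99b3a908de318da94b3e8c8b28eb26c7a162b8962aa26c8a0620a0ec2b027a87e1987a7eb067685278aeeb99be13836129ceba9ae089b6b4aca6481e0181a68ace607f262ab6ab965fb7d5fa976ac955f095ea6a924e7bde97ba52a964a7964ca7e9e915e491e98a5e388f5e3771e29063975dd68f242a4e918c9d174235a4a2d72dca8c28da2286899c571229a1e216fdbe892829f67b869b96e21d9f2156cdb2862779ca70839ad6b2119c60969da68326c99e65809a168205999fd66d9a802619725a7d995651f996df163d8e7d2569464f7a989621ed941e6611e892e469023e775835f1827863f761775d9db8ee3a749715c1d58d2337316b5a9cf8be2e71965591c98a2277015f579c388e226e959561bd8721b6d153549b785e166b94d531b18420f6a147519ab82e0a68941501a5812036713b4e99f7fdfe659354d1997e1f76412f4b9937cdf2629294a18d7b1eb6152461de7781de5f52347522605df5e1174597b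769d95c91244575751d35b10b4296f739cd5990641569721c7580ff3f963709c1568fa3e55d6f1bb550f33c9576d9b5538ee3b5516c1af520e73994b6a9a9508e238545691a34f0db3693f6799d4d8d635539661974c0cf33933649914a8ca3252d6318b494c449d866017e478c3309215fd182f4b72f11c5e97944cb3455745cd0c2c8ac2c5105b96d41ca84256859d0029ca129904589613ec9d3f55c56cf42709626cf8559553bc923c55053ce82448b240ec5294938c873954450cdc21880214e04f93d35c7c365384dcd01ec751e8d44c93132c713352c4acc51c06f321264811f2f86b1a8c146d192e06418cbb468b4178b64510f434ad1745c2c10e2a4572ad0840d0128856154a54089e140a03f0f73d49713c4e268f624c49254f03ace92304811c8f3a8881088a390df3748110440210de1f43b1fcd834cd11d83a0e479348720d474330c73186c0d06e300bf194330b4321a4ba2e45f0a428188b52bcae1602408c5b2a8a428c5107c1e1509f264981281a0644d2508e23443054141188920c820f01003c3f1f8781dc3602c381cc6d1a0660b80a0243119c2a01c2c184600940609c5a164200142214c5206c040744c12c1600c18114440440204c3e0f40c0040e0dc300bc000ac260841c05c1203408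
/-- the labels of the vertices -/
def tV : ℕ := 0x818181818181818180808080807f7f7f7f7f7e7e7e7e7e7d7d7d7d7d7c7c7c7c7c7b7b7b7b7b7a7a7a7a7a7979797979787878787878787777777777777776767676767676757575757575757474747474747473737373737373727272727272727171717171717170707070706f6f6f6f6f6f6e6e6e6e6e6d6d6d6d6d6d6c6c6c6c6c6b6b6b6b6b6b6a6a6a6a6a696969696969686868686867676767676766666666666565656565656464646464636363636363626262626261616161616160606060605f5f5f5f5f5f5f5e5e5e5e5e5d5d5d5d5d5d5d5c5c5c5c5c5b5b5b5b5b5b5b5a5a5a5a5a595959595959595858585858575757575757575656565656555555555555555454545454535353535353535252525252515151515151515050505050504f4f4f4f4f4f4e4e4e4e4e4e4d4d4d4d4d4d4c4c4c4c4c4c4b4b4b4b4b4b4a4a4a4a4a4a4949494949494848484848484747474747474646464646464545454545454444444444444343434343434242424242424141414141414040404040403f3f3f3f3f3f3e3e3e3e3e3e3d3d3d3d3d3d3c3c3c3c3c3c3b3b3b3b3b3b3a3a3a3a3a3a393939393939383838383838373737373737363636363636353535353535343434343434333333333333323232323232313131313131303030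30302f2f2f2f2f2f2f2e2e2e2e2e2d2d2d2d2d2d2d2c2c2c2c2c2b2b2b2b2b2b2b2a2a2a2a2a292929292929292828282828272727272727272626262626252525252525252424242424232323232323232222222222212121212121212020202020201f1f1f1f1f1e1e1e1e1e1e1d1d1d1d1d1c1c1c1c1c1c1b1b1b1b1b1a1a1a1a1a1a19191919191818181818181717171717161616161616151515151514141414141413131313131212121212121111111111101010101010100f0f0f0f0f0f0f0e0e0e0e0e0e0e0d0d0d0d0d0d0d0c0c0c0c0c0c0c0b0b0b0b0b0b0b0a0a0a0a0a0a0a09090909090909080808080807070707070606060606050505050504040404040303030303020202020201010101010000000000000000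
/-- the first darts of the vertices -/
def tO : ℕ := 0xbe2f3bbae9b92dfb6ad5b42c9b0abbad2ada9a9fa6293a3688a0a7d9de729b2679865c95a5192e469023b8d22f8a223872178420b811ff7e1f37b1e7781da751ce721c26f1b66c1aa6919e66192631866017a5d16e5a162571565414a5113e4e1324b1264811b4510f421033f0f73c0eb390df360d3330c7300ba2d4af2a8a427c992508e224831f8781cc6d1a06116853130450f8370c02b09821070170480d02000
/-- the labels of the faces -/
def tF : ℕ := 0xfafbfcfdfefff8f9f7f8fff5f6f5fffef3f4f3fefdf1f2f1fdfceff0effcfbedeeedfbfaebecebfaf9e9eaf9f8f7e8e9e6e7e8f7f6e4e5e3e4f6f5f4e1e2e0e1f4f3f2dedfdddef2f1f0dbdcdadbf0efeed8d9d7d8eeedecd5d6d4d5ecebead2d3d2eae9e8e7d0d1d0e7e6cdcecccde6e5cacbe5e4e3c9cac8c9e3e2c6c7e2e1e0c5c6c4c5e0dfc2c3dfdeddc1c2c0c1dddcbebfdcdbdabdbebcbddad9babbd9d8d7b9bab8b9d7d6b6b7d6d5d4b5b6b4b5d4d3b2b3d3d2d1b1b2d1d0cecfb0b1afb0cfadaeadcfcecdccabacabcccba9aaa9cbcac9c8a7a8a7c8c7a5a6a5c7c6c5c4a3a4a3c4c3a1a2a1c3c2c1c09fa09fc0bf9d9e9dbfbebdbc9b9c9bbcbb999a99bbbab9b8979897b8b7959695b7b6b5b4939493b4b39192b3b2b1b0af90918f90afae8d8e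8daeadac8b8c8bacabaa898a89aaa9a8878887a8a7a6858685a6a5a4838483a4a3a2818281a2a1a07f807fa09f9e7d7e7d9e9d9c7b7c7b9c9b9a797a799a999877787798979675767596959473747394939271729291908f70716f708f8e6d6e6d8e8d8c6b6c6b8c8b8a696a698a89886768678887866566658685846364638483826162618281805f605f807f7e5d5e5d7e7d7c5b5c5b7c7b7a595a597a797857585778777655565576757453545374737251527271706f5051506f6e4e4f4d4e6e6d6c4b4c6c6b6a4a4b494a6a69684748686766464745466665644344646362424341426261603f40605f5e3e3f3d3e5e5d5c3b3c5c5b5a3a3b393a5a595837385857563637353656555433345453523233325251504f3031304f4e4d2e2f2e4d4c2c2d4c4b4a492b2c2b4948292a48474645282928454426274443424125262541402324403f3e3d2223223d3c20213c3b3a391f201f39381d1e383736351c1d1c35341a1b34333231191a31302f181917182f2e2d1516152d2c2b2a1314132a292827111211272625240f100f242322210d0e0d21201f1e0b0c0b1e1d1c1b090a1b1a19181708090817160700161514060714131205061211100405100f0e03040e0d0c02030c0b0a01020a090800010706050403020100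
/-- the first darts of the faces -/
def tR : ℕ := 0xbc6ecb9ee2b76d8b52d3b32c6b16bfafab8adeb1ac2aaaa6a3a8a9da729ba5a90a328ba1681a027a9da759be6b9aa649825f966559524e92a49916448e6388de328b62c8ae268862087e1a8561484e0e8260881e027f5fc7edf67c5f07bdea799e5791e3775d875dd2745cc72dc6715c06fdba6e5b46cdae6b5a869da26859c66d966559063d8a62585611835f5785dd725c56c5ad665956057d5a5655454d4e5354851d425053c4ed364d5304bd2a4a525491234791845d134490c42d07419003fcfb3e8f43ccef3b8e839ce3388dc36cd7358d033ccb328c5310c32f8bd2e0b42ccb22b4a92a0a72889e2749c25c93248912308821c862047d1f07b1d8721c4701b06b1946417c5e1745815c561445013c4a1244810c421043c0ec3a0d8350d0330b82a0a4250902007c1b06816054110400c02c0a01c060140400c0200400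
/-- the degrees of the vertices -/
def tD : ℕ := 0x8555555557777777756565656565656565757575757575757666666666666666666666666666666665757575757575757656565656565656577777777555555558

/-- the number `x`, as a dart -/
def mk (x : ℕ) : Fin 768 := Fin.ofNat 768 x

/-- the rotation -/
def sF (x : Fin 768) : Fin 768 := mk (get 10 tS x.1)
/-- the inverse rotation -/
def siF (x : Fin 768) : Fin 768 := mk (get 10 tSi x.1)
/-- the reversal -/
def aF (x : Fin 768) : Fin 768 := mk (get 10 tA x.1)
/-- the label of the initial vertex of a dart -/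
def vL (x : Fin 768) : ℕ := get 8 tV x.1
/-- the first dart of a vertex -/
def vR (l : ℕ) : Fin 768 := mk (get 10 tO l)
/-- the label of the face of a dart -/
def fL (x : Fin 768) : ℕ := get 8 tF x.1
/-- the first dart of a face -/
def fR (l : ℕ) : Fin 768 := mk (get 10 tR l)
/-- the degree of a vertex -/
def dV (l : ℕ) : ℕ := get 4 tD l

theorem s_left : ∀ x, siF (sF x) = x := by decide +kernel
theorem s_right : ∀ x, sF (siF x) = x := by decide +kernel
theorem a_inv : ∀ x, aF (aF x) = x := by decide +kernel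

/-- the rotation -/
def sP : Perm (Fin 768) := ⟨sF, siF, s_left, s_right⟩
/-- the reversal -/
def aP : Perm (Fin 768) := ⟨aF, aF, a_inv, a_inv⟩

theorem sP_apply (x : Fin 768) : sP x = sF x := rfl
theorem aP_apply (x : Fin 768) : aP x = aF x := rfl
theorem next_apply (x : Fin 768) : (sP * aP) x = sF (aF x) := rfl

theorem a_ne : ∀ x, aF x ≠ x := by decide +kernel
theorem v_inv : ∀ x, vL (sF x) = vL x := by decide +kernel
theorem v_lt : ∀ x, vL x < 130 := by decide +kernel
theorem v_rep : ∀ l : Fin 130, vL (vR l) = l := by decide +kernel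
theorem v_step : ∀ x : Fin 768, vR (vL x) = x ∨
    (0 < x.1 ∧ sF (mk (x.1 - 1)) = x ∧ vL (mk (x.1 - 1)) = vL x) := by decide +kernel
theorem conn_step : ∀ x : Fin 768, x.1 = 0 ∨ sF (mk (x.1 - 1)) = x ∨ (aF x).1 < x.1 := by
  decide +kernel
theorem f_inv : ∀ x, fL (sF (aF x)) = fL x := by decide +kernel
theorem f_lt : ∀ x, fL x < 256 := by decide +kernel
theorem f_rep : ∀ l : Fin 256, fL (fR l) = l := by decide +kernel
theorem f_step : ∀ x : Fin 768, fR (fL x) = x ∨ sF (aF (fR (fL x))) = x ∨
    sF (aF (sF (aF (fR (fL x))))) = x := by decide +kernel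
theorem f_three : ∀ x : Fin 768, sF (aF (sF (aF (sF (aF x))))) = x ∧ sF (aF x) ≠ x := by
  decide +kernel

theorem s_same (x : Fin 768) : sP.SameCycle (vR (vL x)) x := by
  have key : ∀ m : ℕ, ∀ x : Fin 768, x.1 = m → sP.SameCycle (vR (vL x)) x := by
    intro m
    induction m with
    | zero =>
      intro x hx
      rcases v_step x with h | ⟨h0, -, -⟩
      · rw [h]
      · omega
    | succ m ih =>
      intro x hx
      rcases v_step x with h | ⟨-, h1, h2⟩
      · rw [h]
      · have h3 : mk (x.1 - 1) = ⟨m, by omega⟩ := by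
          apply Fin.ext
          simp only [mk, Fin.ofNat]
          rw [hx]
          have := x.2
          omega
        rw [h3] at h1 h2
        have h4 := ih ⟨m, by omega⟩ rfl
        rw [h2] at h4
        refine h4.trans ⟨1, ?_⟩
        rw [zpow_one]
        exact h1
  exact key x.1 x rfl

theorem s_iff (x y : Fin 768) : sP.SameCycle x y ↔ vL x = vL y :=
  sameCycle_iff sP vL vR v_inv s_same x y

theorem f_same (x : Fin 768) : (sP * aP).SameCycle (fR (fL x)) x := by
  rcases f_step x with h | h | h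
  · rw [h]
  · refine ⟨1, ?_⟩
    rw [zpow_one]
    exact h
  · refine ⟨2, ?_⟩
    have : ((sP * aP) ^ (2 : ℤ)) (fR (fL x)) = (sP * aP) ((sP * aP) (fR (fL x))) := by
      rw [zpow_two]
      rfl
    rw [this]
    exact h

theorem loopless : ∀ x, vL x ≠ vL (aF x) := by decide +kernel

theorem block : ∀ y : Fin 768, (vR (vL y)).1 ≤ y.1 ∧ y.1 < (vR (vL y)).1 + 8 := by
  decide +kernel

theorem multi : ∀ x : Fin 768, ∀ j : Fin 8,
    vL (mk ((vR (vL x)).1 + j.1)) = vL x → vL (aF (mk ((vR (vL x)).1 + j.1))) = vL (aF x) →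
    mk ((vR (vL x)).1 + j.1) = x := by
  decide +kernel

theorem no_multi (x y : Fin 768) (h1 : vL x = vL y) (h2 : vL (aF x) = vL (aF y)) : x = y := by
  obtain ⟨h3, h4⟩ := block y
  have h5 : mk ((vR (vL x)).1 + (y.1 - (vR (vL y)).1)) = y := by
    apply Fin.ext
    simp only [mk, Fin.ofNat]
    rw [h1]
    have := y.2
    omega
  have h6 := multi x ⟨y.1 - (vR (vL y)).1, by omega⟩
  simp only [h5] at h6
  exact (h6 h1.symm h2.symm).symm

theorem reach (x : Fin 768) : ∃ g ∈ Subgroup.closure ({sP, aP} : Set (Perm (Fin 768))),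
    g ⟨0, by norm_num⟩ = x := by
  have key : ∀ m : ℕ, ∀ x : Fin 768, x.1 < m →
      ∃ g ∈ Subgroup.closure ({sP, aP} : Set (Perm (Fin 768))), g ⟨0, by norm_num⟩ = x := by
    intro m
    induction m with
    | zero => intro x hx; omega
    | succ m ih =>
      intro x hx
      rcases conn_step x with h | h | h
      · exact ⟨1, Subgroup.one_mem _, Fin.ext h.symm⟩
      · by_cases h0 : x.1 = 0
        · exact ⟨1, Subgroup.one_mem _, Fin.ext h0.symm⟩
        · have h3 : mk (x.1 - 1) = ⟨x.1 - 1, by omega⟩ := by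
            apply Fin.ext
            simp only [mk, Fin.ofNat]
            have := x.2
            omega
          obtain ⟨g, hg, hg'⟩ := ih ⟨x.1 - 1, by omega⟩ (by simp only; omega)
          refine ⟨sP * g, Subgroup.mul_mem _ (Subgroup.subset_closure (by simp)) hg, ?_⟩
          rw [Perm.mul_apply, hg', ← h3]
          exact h
      · obtain ⟨g, hg, hg'⟩ := ih (aF x) (by omega)
        refine ⟨aP * g, Subgroup.mul_mem _ (Subgroup.subset_closure (by simp)) hg, ?_⟩
        rw [Perm.mul_apply, hg']
        exact a_inv x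
  exact key 768 x x.2

/-- The example: a triangulation with `130` vertices, `384` edges and `256` faces. -/
def G₀ : PlaneGraph where
  n := 768
  σ := sP
  α := aP
  nonempty := by norm_num
  involutive := a_inv
  reverse_ne := a_ne
  connected := by
    intro d e
    obtain ⟨g, hg, hg'⟩ := reach d
    obtain ⟨h, hh, hh'⟩ := reach e
    refine ⟨h * g⁻¹, Subgroup.mul_mem _ hh (Subgroup.inv_mem _ hg), ?_⟩
    rw [Perm.mul_apply, ← hg']
    simpa using hh'
  no_loop := by
    intro d h
    exact loopless d ((s_iff _ _).1 h)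
  no_multiple := by
    intro d e h1 h2
    exact no_multi d e ((s_iff _ _).1 h1) ((s_iff _ _).1 h2)
  euler := by
    rw [card_cycles sP vL vR 130 v_inv s_same v_lt v_rep,
      card_cycles (sP * aP) fL fR 256 f_inv f_same f_lt f_rep]

theorem degrees : ∀ l : Fin 130,
    (Finset.univ.filter fun e : Fin 768 => (l : ℕ) = vL e).card = dV l := by
  decide +kernel

theorem deg_eq (d : Fin 768) : G₀.deg d = dV (vL d) := by
  have h1 : G₀.deg d = Nat.card {e : Fin 768 // vL d = vL e} := by
    unfold PlaneGraph.deg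
    exact Nat.card_congr (Equiv.subtypeEquivRight fun e => s_iff d e)
  rw [h1, Nat.card_eq_fintype_card, Fintype.card_subtype]
  exact degrees ⟨vL d, v_lt d⟩

/-- The permutation `next` of the example. -/
def nx (x : Fin 768) : Fin 768 := sF (aF x)

theorem next_eq (d : Fin 768) : G₀.next d = nx d := rfl

/-- The degrees of the vertices of the triangle on the side of the dart `d`. -/
def tri (d : Fin 768) : Multiset ℕ := {dV (vL d), dV (vL (nx d)), dV (vL (nx (nx d)))}

theorem rot (a b c : ℕ) : ({b, c, a} : Multiset ℕ) = {a, b, c} := by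
  simp only [Multiset.insert_eq_cons]
  rw [← Multiset.cons_zero a, Multiset.cons_swap c a, Multiset.cons_swap b a]
  rfl

theorem tri_next (d : Fin 768) : tri (nx d) = tri d := by
  have h : nx (nx (nx d)) = d := (f_three d).1
  unfold tri
  rw [h]
  exact rot _ _ _

theorem degs (d : Fin 768) :
    ({G₀.deg d, G₀.deg (G₀.next d), G₀.deg (G₀.next (G₀.next d))} : Multiset ℕ) = tri d := by
  have e1 : G₀.deg d = dV (vL d) := deg_eq d
  have e2 : G₀.deg (G₀.next d) = dV (vL (nx d)) := deg_eq (nx d)
  have e3 : G₀.deg (G₀.next (G₀.next d)) = dV (vL (nx (nx d))) := deg_eq (nx (nx d))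
  exact congrArg₂ (fun a s => a ::ₘ s) e1 (congrArg₂ (fun a b => a ::ₘ {b}) e2 e3)

theorem isTriangle_iff (i j k : ℕ) (l : Fin 256) :
    G₀.IsTriangle i j k (cyclesEquiv (sP * aP) fL fR 256 f_inv f_same f_lt f_rep l) ↔
      tri (fR l) = {i, j, k} := by
  constructor
  · rintro ⟨d, hd, -, -, h⟩
    have h1 : (sP * aP).SameCycle d (fR l) := Quotient.exact hd
    have h2 : fL d = l := by
      rw [(sameCycle_iff (sP * aP) fL fR f_inv f_same _ _).1 h1]
      exact f_rep l
    have h3 : tri d = {i, j, k} := (degs d).symm.trans h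
    rw [← h3]
    rcases f_step d with h4 | h4 | h4
    · rw [h2] at h4
      rw [h4]
    · rw [h2] at h4
      have h5 : nx (fR l) = d := h4
      rw [← h5, tri_next]
    · rw [h2] at h4
      have h5 : nx (nx (fR l)) = d := h4
      rw [← h5, tri_next, tri_next]
  · intro h
    exact ⟨fR l, rfl, (f_three _).1, (f_three _).2, (degs (fR l)).trans h⟩

theorem f_eq (i j k : ℕ) :
    G₀.f i j k = (Finset.univ.filter fun l : Fin 256 => tri (fR l) = {i, j, k}).card := by
  have h1 : G₀.f i j k = Nat.card {l : Fin 256 // tri (fR l) = {i, j, k}} := by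
    unfold PlaneGraph.f
    exact (Nat.card_congr (Equiv.subtypeEquiv
      (cyclesEquiv (sP * aP) fL fR 256 f_inv f_same f_lt f_rep)
      fun l => (isTriangle_iff i j k l).symm)).symm
  rw [h1, Nat.card_eq_fintype_card, Fintype.card_subtype]

theorem f555 : G₀.f 5 5 5 = 0 := by
  rw [f_eq]
  decide +kernel

theorem f556 : G₀.f 5 5 6 = 0 := by
  rw [f_eq]
  decide +kernel

theorem f557 : G₀.f 5 5 7 = 16 := by
  rw [f_eq]
  decide +kernel

theorem f566 : G₀.f 5 6 6 = 16 := by
  rw [f_eq]
  decide +kernel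

theorem five_le : ∀ d : Fin 768, 5 ≤ dV (vL d) := by decide +kernel

theorem minDeg : G₀.MinDegFive := fun d => (five_le d).trans_eq (deg_eq d).symm

/-- **The optimal coefficient of `f_{5,5,7}` is `5`.**

(1) There is a connected simple plane triangulation of minimum degree at least `5` with
`f_{5,5,5} = f_{5,5,6} = 0` and `f_{5,5,7} = f_{5,6,6} = 16`. For this graph Borodin's inequality
`(∗_5)` is an equality, and `(∗_c)` fails for all `c < 5`.
(2) Hence, if `(∗_c)` holds for all connected simple plane graphs of minimum degree at least `5`,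
then `c ≥ 5`.
(3) Hence, by Borodin's theorem that `(∗_5)` holds, `5` is the least such coefficient. -/
theorem result :
    (∃ G : PlaneGraph, G.IsTriangulation ∧ G.MinDegFive ∧ G.f 5 5 5 = 0 ∧ G.f 5 5 6 = 0 ∧
      G.f 5 5 7 = 16 ∧ G.f 5 6 6 = 16 ∧ ∀ c : ℝ, G.Light c ↔ 5 ≤ c) ∧
    (∀ c : ℝ, HoldsForAll c → 5 ≤ c) ∧
    (HoldsForAll 5 → IsLeast {c : ℝ | 0 ≤ c ∧ HoldsForAll c} 5) := by
  have hG : ∀ c : ℝ, G₀.Light c ↔ 5 ≤ c := by
    intro c
    unfold PlaneGraph.Light
    rw [f555, f556, f557, f566]
    norm_num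
    constructor <;> intro h <;> linarith
  have h2 : ∀ c : ℝ, HoldsForAll c → 5 ≤ c := fun c h => (hG c).1 (h G₀ minDeg)
  refine ⟨⟨G₀, fun d => f_three d, minDeg, f555, f556, f557, f566, hG⟩, h2, fun h => ?_⟩
  exact ⟨⟨by norm_num, h⟩, fun c hc => h2 c hc.2⟩

end Pool.Agent.Results.MP_cadcf7_co.OptimalCoefficient
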